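import Pool.Agent.Y1.KN.Stm2
import Pool.Agent.Y275.KN.Field

/-!
# Project KN (helper1), task CORR: subgroups above the stabilizer of an embedding and subfields
-/

set_option autoImplicit false
set_option linter.unusedSectionVars false
set_option linter.unusedVariables false

namespace Pool.Agent.Y281.KN

open NumberField Module IntermediateField Pool.Agent.H204R3.CM Pool.Agent.TH170.MF
  Pool.Agent.H977R3.CM Pool.Agent.Y275.KN

/-- Task: subgroups above the stabilizer of an embedding and subfields. -/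
theorem corr : Pool.Agent.Y1.KN.P_corr := by
  intro E _ _ _ φ₀ H' hle
  obtain ⟨T, hT⟩ := exists_iso E
  obtain ⟨H, hH⟩ : ∃ H : Subgroup (NN E ≃ₐ[ℚ] NN E), H = H'.comap T.toMonoidHom := ⟨_, rfl⟩
  have hmem : ∀ g, g ∈ H ↔ T g ∈ H' := fun g => by rw [hH]; rfl
  -- the embedding in the normal closure
  let φr : E →+* NN E := φ₀.codRestrict (NN E).toSubfield.toSubring (nn_mem E φ₀)
  let φ : E →ₐ[ℚ] NN E := RingHom.equivRatAlgHom E (NN E) φr
  have hφ : ∀ x, φ x = ⟨φ₀ x, nn_mem E φ₀ x⟩ := fun x => rfl
  have hfix : φ.fieldRange.fixingSubgroup ≤ H := by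
    intro g hg
    rw [hmem]
    apply hle
    rw [MulAction.mem_stabilizer_iff]
    ext x
    rw [hT, ← hφ, (IntermediateField.mem_fixingSubgroup_iff _ g).1 hg (φ x) ⟨x, rfl⟩]
    rfl
  have hrange : fixedField H ≤ φ.fieldRange := by
    intro y hy
    rw [← IsGalois.fixedField_fixingSubgroup φ.fieldRange]
    rw [mem_fixedField_iff] at hy ⊢
    exact fun g hg => hy g (hfix hg)
  obtain ⟨F, hFd⟩ : ∃ F : IntermediateField ℚ E, F = (fixedField H).comap φ := ⟨_, rfl⟩
  have hFm : ∀ x, x ∈ F ↔ φ x ∈ fixedField H := fun x => by rw [hFd]; rfl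
  refine ⟨F, fun γ => ?_⟩
  obtain ⟨g, rfl⟩ := T.surjective γ
  rw [← hmem]
  constructor
  · intro hg x hx
    have h1 : φ x ∈ fixedField H := (hFm x).1 hx
    rw [mem_fixedField_iff] at h1
    rw [hT, ← hφ, h1 g hg]
    rfl
  · intro h
    have h1 : g ∈ (fixedField H).fixingSubgroup := by
      rw [IntermediateField.mem_fixingSubgroup_iff]
      intro y hy
      obtain ⟨x, rfl⟩ := hrange hy
      have h2 : x ∈ F := (hFm x).2 hy
      have h3 := h x h2
      rw [hT] at h3
      exact Subtype.ext h3
    rwa [fixingSubgroup_fixedField] at h1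

/-- The space of the odd functions with respect to an involution. -/
theorem odd_dim {Y : Type*} [Fintype Y] (τ : Y → Y) (hτ : ∀ y, τ (τ y) = y)
    {V : Type*} [AddCommGroup V] [Module ℚ V] (L : V →ₗ[ℚ] (Y → ℚ))
    (hL : Function.Injective L) (ho : ∀ v y, L v (τ y) = - L v y) :
    2 * finrank ℚ V ≤ Fintype.card Y := by
  classical
  let f := Fintype.equivFin Y
  let T : Finset Y := Finset.univ.filter (fun y => f y < f (τ y))
  have hT : ∀ y, y ∈ T ↔ f y < f (τ y) := fun y => by simp [T]
  -- restriction to `T`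
  let R : V →ₗ[ℚ] (T → ℚ) := (LinearMap.funLeft ℚ ℚ (fun y : T => (y : Y))) ∘ₗ L
  have hR : ∀ v (y : T), R v y = L v (y : Y) := fun v y => rfl
  have hinj : Function.Injective R := by
    rw [injective_iff_map_eq_zero]
    intro v hv
    apply hL
    rw [map_zero]
    funext y
    change L v y = 0
    rcases lt_trichotomy (f y) (f (τ y)) with h | h | h
    · have := congrFun hv ⟨y, (hT y).2 h⟩
      rw [hR] at this
      exact this
    · have h1 : y = τ y := f.injective h
      have h2 := ho v y
      rw [← h1] at h2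
      linarith
    · have h1 : τ y ∈ T := (hT _).2 (by rw [hτ]; exact h)
      have := congrFun hv ⟨τ y, h1⟩
      rw [hR, ho] at this
      have h3 : - L v y = 0 := this
      linarith
  have h1 : finrank ℚ V ≤ T.card := by
    have := LinearMap.finrank_le_finrank_of_injective hinj
    rw [finrank_fintype_fun_eq_card, Fintype.card_coe] at this
    exact this
  have h2 : Disjoint T (T.image τ) := by
    rw [Finset.disjoint_left]
    intro y hy hy'
    obtain ⟨z, hz, rfl⟩ := Finset.mem_image.1 hy'
    rw [hT] at hy hz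
    rw [hτ] at hy
    exact absurd hy (not_lt.2 hz.le)
  have h3 : (T.image τ).card = T.card :=
    Finset.card_image_of_injective _ (fun a b hab => by rw [← hτ a, hab, hτ])
  have h4 : T.card + (T.image τ).card ≤ Fintype.card Y := by
    rw [← Finset.card_union_of_disjoint h2]
    exact Finset.card_le_univ _
  omega

/-- Task: the odd functions that depend only on the restriction to a subfield. -/
theorem dim : Pool.Agent.Y1.KN.P_dim := by
  intro E _ _ _ F V hodd hdep
  let ext : (F →+* ℂ) → (E →+* ℂ) := fun ψ => NumberField.ComplexEmbedding.lift E ψ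
  have hext : ∀ (ψ : F →+* ℂ) (x : F), ext ψ (x : E) = ψ x := fun ψ x =>
    NumberField.ComplexEmbedding.lift_algebraMap_apply E ψ x
  let L : V →ₗ[ℚ] ((F →+* ℂ) → ℚ) := (LinearMap.funLeft ℚ ℚ ext) ∘ₗ V.subtype
  have hLd : ∀ v ψ, L v ψ = (v : (E →+* ℂ) → ℚ) (ext ψ) := fun v ψ => rfl
  have hinj : Function.Injective L := by
    rw [injective_iff_map_eq_zero]
    intro v hv
    apply Subtype.ext
    funext φ
    have h1 : (v : (E →+* ℂ) → ℚ) φ = (v : (E →+* ℂ) → ℚ) (ext (φ.comp (algebraMap F E))) := by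
      apply hdep v v.2
      intro x hx
      exact (hext (φ.comp (algebraMap F E)) ⟨x, hx⟩).symm
    rw [h1, ← hLd, hv]
    rfl
  have ho : ∀ v ψ, L v (ComplexEmbedding.conjugate ψ) = - L v ψ := by
    intro v ψ
    rw [hLd, hLd, ← hodd v v.2]
    apply hdep v v.2
    intro x hx
    rw [hext _ ⟨x, hx⟩, ComplexEmbedding.conjugate_coe_eq, ComplexEmbedding.conjugate_coe_eq,
      hext ψ ⟨x, hx⟩]
  have h := odd_dim ComplexEmbedding.conjugate (fun ψ => star_involutive ψ) L hinj ho
  rwa [Embeddings.card] at h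

end Pool.Agent.Y281.KN
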