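import Mathlib
import Pool.Agent.Y1.KN.Stm3

/-!
# The square of a value of the character of an invariant space
-/

set_option linter.unusedSectionVars false
set_option linter.unusedVariables false

namespace Pool.Agent.Y281.KN

open Finset Module Pool.Agent.TH170.MF Pool.Agent.TH170.QC Pool.Agent.TH170.QE Pool.Agent.TH170.FW
open Pool.Agent.Y1.KN

section adj

variable {X : Type*} [Fintype X]

theorem trace_eq_sum_dot [DecidableEq X] (A : (X → ℚ) →ₗ[ℚ] (X → ℚ)) :
    LinearMap.trace ℚ (X → ℚ) A = ∑ x, dot X (A (Pi.single x 1)) (Pi.single x 1) := by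
  rw [LinearMap.trace_eq_matrix_trace ℚ (Pi.basisFun ℚ X), Matrix.trace]
  refine sum_congr rfl fun x _ => ?_
  rw [Matrix.diag_apply, LinearMap.toMatrix_apply, Pi.basisFun_repr, Pi.basisFun_apply, dot_apply]
  rw [Finset.sum_eq_single x]
  · rw [Pi.single_eq_same, mul_one]
  · intro y _ hy
    rw [Pi.single_eq_of_ne hy, mul_zero]
  · intro h
    exact absurd (mem_univ x) h

theorem trace_adj (A B : (X → ℚ) →ₗ[ℚ] (X → ℚ)) (h : ∀ u v, dot X (A u) v = dot X u (B v)) :
    LinearMap.trace ℚ (X → ℚ) A = LinearMap.trace ℚ (X → ℚ) B := by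
  classical
  rw [trace_eq_sum_dot, trace_eq_sum_dot]
  refine sum_congr rfl fun x _ => ?_
  rw [h, dot_comm]

end adj

section

variable {G X : Type*} [Group G] [MulAction G X]

/-- The representation on an invariant space. -/
noncomputable def repr (S : Submodule ℚ (X → ℚ)) (hS : Invariant G S) : Representation ℚ G S where
  toFun γ := (tr γ⁻¹ : (X → ℚ) →ₗ[ℚ] (X → ℚ)).restrict (p := S) (q := S)
    (fun s hs => tr_mem hS γ⁻¹ hs)
  map_one' := by
    ext1 s
    apply Subtype.ext
    change tr (1 : G)⁻¹ (s : X → ℚ) = s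
    rw [inv_one, tr_one]
  map_mul' := by
    intro γ δ
    ext1 s
    apply Subtype.ext
    change tr (γ * δ)⁻¹ (s : X → ℚ) = tr γ⁻¹ (tr δ⁻¹ (s : X → ℚ))
    rw [tr_tr, mul_inv_rev]

theorem repr_apply {S : Submodule ℚ (X → ℚ)} (hS : Invariant G S) (γ : G) (s : S) :
    ((repr S hS γ s : S) : X → ℚ) = tr γ⁻¹ (s : X → ℚ) := rfl

variable [Fintype G] [Fintype X]

theorem character_repr {S : Submodule ℚ (X → ℚ)} (hS : Invariant G S) (γ : G) :
    (repr S hS).character γ = LinearMap.trace ℚ (X → ℚ) (proj S ∘ₗ tr γ) := by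
  have h1 : (repr S hS).character γ = LinearMap.trace ℚ (X → ℚ) (proj S ∘ₗ tr γ⁻¹) :=
    (trace_proj_comp S (tr γ⁻¹) fun s hs => tr_mem hS γ⁻¹ hs).symm
  rw [h1]
  apply trace_adj
  intro u v
  rw [LinearMap.comp_apply, LinearMap.comp_apply, proj_symm, dot_tr, inv_inv, proj_tr hS]

/-- The intertwining maps are the equivariant maps of the library. -/
noncomputable def homsEquiv {S : Submodule ℚ (X → ℚ)} (hS : Invariant G S) :
    Representation.IntertwiningMap (repr S hS) (repr S hS) ≃ₗ[ℚ] homs G S S where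
  toFun F := ⟨S.subtype ∘ₗ F.toLinearMap, fun s => (F.toLinearMap s).2, by
    intro γ s t hst x
    have h1 : t = repr S hS γ⁻¹ s := by
      apply Subtype.ext
      funext y
      rw [repr_apply, inv_inv, tr_apply, hst]
    rw [LinearMap.comp_apply, LinearMap.comp_apply, h1]
    have h2 := F.isIntertwining' γ⁻¹
    have h3 := congrArg (fun T : S →ₗ[ℚ] S => ((T s : S) : X → ℚ)) h2
    have h4 := congrFun h3 x
    simp only [LinearMap.comp_apply, repr_apply, inv_inv, tr_apply] at h4
    exact h4⟩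
  map_add' F F' := rfl
  map_smul' r F := rfl
  invFun A := ⟨A.1.codRestrict S A.2.1, by
    intro γ
    ext1 s
    apply Subtype.ext
    funext x
    change A.1 (repr S hS γ s) x = A.1 s (γ⁻¹ • x)
    exact A.2.2 γ⁻¹ s (repr S hS γ s) (fun y => rfl) x⟩
  left_inv F := rfl
  right_inv A := rfl

end

theorem char : P_char := by
  intro G X _ _ _ _ S η hS
  classical
  have hcard : (Nat.card G : ℚ) ≠ 0 := by
    have : 0 < Nat.card G := Nat.card_pos
    exact_mod_cast this.ne'
  have : Invertible (Nat.card G : ℚ) := invertibleOfNonzero hcard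
  have key := Representation.card_inv_mul_sum_char_mul_char_eq_finrank (repr S hS) (repr S hS)
  rw [(homsEquiv hS).finrank_eq] at key
  set χ : G → ℚ := fun γ => LinearMap.trace ℚ (X → ℚ) (proj S ∘ₗ tr γ) with hχ
  have hχ1 : ∀ γ, (repr S hS).character γ = χ γ := fun γ => character_repr hS γ
  have hχ2 : ∀ γ, χ γ⁻¹ = χ γ := by
    intro γ
    rw [← hχ1 γ]
    exact (trace_proj_comp S (tr γ⁻¹) fun s hs => tr_mem hS γ⁻¹ hs)
  have hχ3 : ∀ γ δ, χ (δ * γ * δ⁻¹) = χ γ := by
    intro γ δ
    rw [← hχ1, ← hχ1, Representation.char_conj]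
  have hsum : ∑ γ, χ γ ^ 2 = Nat.card G * (edim G S : ℚ) := by
    have h1 : ∑ γ, (repr S hS).character γ * (repr S hS).character γ⁻¹ = ∑ γ, χ γ ^ 2 := by
      refine sum_congr rfl fun γ _ => ?_
      rw [hχ1, hχ1, hχ2, sq]
    rw [h1, inv_mul_eq_iff_eq_mul₀ hcard] at key
    exact key
  -- the size of the class
  have hst : Nat.card (Subgroup.centralizer ({η} : Set G)) =
      Nat.card (MulAction.stabilizer (ConjAct G) η) :=
    Subgroup.nat_card_centralizer_nat_card_stabilizer η
  have horb : Nat.card (MulAction.orbit (ConjAct G) η) *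
      Nat.card (MulAction.stabilizer (ConjAct G) η) = Nat.card G := by
    have h1 := MulAction.card_orbit_mul_card_stabilizer_eq_card_group (ConjAct G) η
    simp only [← Nat.card_eq_fintype_card] at h1
    rw [h1]
    rfl
  have hle : (Nat.card (MulAction.orbit (ConjAct G) η) : ℚ) * χ η ^ 2 ≤ ∑ γ, χ γ ^ 2 := by
    have h1 : ∑ γ ∈ (MulAction.orbit (ConjAct G) η).toFinset, χ γ ^ 2 =
        (Nat.card (MulAction.orbit (ConjAct G) η) : ℚ) * χ η ^ 2 := by
      rw [sum_congr rfl (g := fun _ => χ η ^ 2), sum_const, nsmul_eq_mul, Set.toFinset_card,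
        Nat.card_eq_fintype_card]
      intro γ hγ
      rw [Set.mem_toFinset] at hγ
      obtain ⟨δ, rfl⟩ := hγ
      beta_reduce
      rw [ConjAct.smul_def, hχ3]
    rw [← h1]
    exact sum_le_sum_of_subset_of_nonneg (subset_univ _) fun γ _ _ => sq_nonneg _
  rw [hst]
  have hs0 : (0 : ℚ) ≤ Nat.card (MulAction.stabilizer (ConjAct G) η) := by positivity
  have h2 := mul_le_mul_of_nonneg_right hle hs0
  have horb' : (Nat.card (MulAction.orbit (ConjAct G) η) : ℚ) *
      Nat.card (MulAction.stabilizer (ConjAct G) η) = Nat.card G := by exact_mod_cast horb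
  have h3 : (Nat.card G : ℚ) * χ η ^ 2 ≤
      Nat.card G * ((edim G S : ℚ) * Nat.card (MulAction.stabilizer (ConjAct G) η)) := by
    calc (Nat.card G : ℚ) * χ η ^ 2 = (Nat.card (MulAction.orbit (ConjAct G) η) : ℚ) * χ η ^ 2 *
          Nat.card (MulAction.stabilizer (ConjAct G) η) := by
          rw [← horb']
          ring
      _ ≤ (∑ γ, χ γ ^ 2) * Nat.card (MulAction.stabilizer (ConjAct G) η) := h2
      _ = _ := by
          rw [hsum]
          ring
  have hpos : (0 : ℚ) < Nat.card G := lt_of_le_of_ne (by positivity) hcard.symm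
  exact le_of_mul_le_mul_left h3 hpos

end Pool.Agent.Y281.KN
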